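import Pool.Agent.H92.EHD.TR

/-!
Board ehd_modules (MP_75a732_an), row RMB: the mean of the masses over the disc.
-/

set_option autoImplicit false

namespace Pool.Agent.H33.EHD

open scoped BigOperators ComplexConjugate ContDiff ComplexOrder ENNReal
open MeasureTheory
open Pool.Agent.H92.EQ Pool.Agent.H92.EHD

noncomputable section

theorem ofReal_integral_le {α : Type*} [MeasurableSpace α] (μ : Measure α) (f : α → ℝ) :
    ENNReal.ofReal (∫ x, f x ∂μ) ≤ ∫⁻ x, ENNReal.ofReal (f x) ∂μ := by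
  by_cases hf : Integrable f μ
  · rw [integral_eq_lintegral_pos_part_sub_lintegral_neg_part hf]
    refine (ENNReal.ofReal_le_ofReal (sub_le_self _ ENNReal.toReal_nonneg)).trans ?_
    exact ENNReal.ofReal_toReal_le
  · rw [integral_undef hf, ENNReal.ofReal_zero]
    exact zero_le

theorem swap3 {α β γ : Type*} [MeasurableSpace α] [MeasurableSpace β] [MeasurableSpace γ]
    (μ : Measure α) (μ2 : Measure β) (ν : Measure γ) [SFinite μ] [SFinite μ2] [SFinite ν]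
    {g : α → ℝ≥0∞} {L : β → ℝ≥0∞} {K : α → β → γ → ℝ≥0∞} (hg : Measurable g)
    (hL : Measurable L) (hK : Measurable fun w : (α × γ) × β => K w.1.1 w.2 w.1.2) :
    ∫⁻ X, g X * ∫⁻ r, L r * ∫⁻ x, K X r x ∂ν ∂μ2 ∂μ =
      ∫⁻ x, ∫⁻ X, g X * ∫⁻ r, L r * K X r x ∂μ2 ∂μ ∂ν := by
  have h1 : ∀ X, ∫⁻ r, L r * ∫⁻ x, K X r x ∂ν ∂μ2 = ∫⁻ x, ∫⁻ r, L r * K X r x ∂μ2 ∂ν := by
    intro X
    have hc : Measurable fun w : β × γ => ((X, w.2), w.1) := by fun_prop
    have hm : Measurable (fun w : β × γ => L w.1 * K X w.1 w.2) :=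
      (hL.comp measurable_fst).mul (hK.comp hc)
    calc _ = ∫⁻ r, ∫⁻ x, L r * K X r x ∂ν ∂μ2 := by
          refine lintegral_congr fun r => ?_
          have hc2 : Measurable fun x : γ => ((X, x), r) := by fun_prop
          have h2 : Measurable fun x : γ => K X r x := hK.comp hc2
          exact (lintegral_const_mul _ h2).symm
      _ = _ := lintegral_lintegral_swap hm.aemeasurable
  simp only [h1]
  have hm2 : Measurable fun w : α × γ => ∫⁻ r, L r * K w.1 r w.2 ∂μ2 :=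
    Measurable.lintegral_prod_right'
      (f := fun w : (α × γ) × β => L w.2 * K w.1.1 w.2 w.1.2) ((hL.comp measurable_snd).mul hK)
  calc _ = ∫⁻ X, ∫⁻ x, g X * ∫⁻ r, L r * K X r x ∂μ2 ∂ν ∂μ := by
        refine lintegral_congr fun X => ?_
        have hc2 : Measurable fun x : γ => (X, x) := by fun_prop
        have h2 : Measurable fun x : γ => ∫⁻ r, L r * K X r x ∂μ2 := hm2.comp hc2
        exact (lintegral_const_mul _ h2).symm
    _ = _ := lintegral_lintegral_swap (((hg.comp measurable_fst).mul hm2).aemeasurable)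

theorem meas3 {α β γ : Type*} [MeasurableSpace α] [MeasurableSpace β] [MeasurableSpace γ]
    (μ2 : Measure β) (ν : Measure γ) [SFinite μ2] [SFinite ν]
    {L : β → ℝ≥0∞} {K : α → β → γ → ℝ≥0∞} (hL : Measurable L)
    (hK : Measurable fun w : (α × γ) × β => K w.1.1 w.2 w.1.2) :
    Measurable fun X => ∫⁻ r, L r * ∫⁻ x, K X r x ∂ν ∂μ2 := by
  have m9 : Measurable fun w : (α × β) × γ => ((w.1.1, w.2), w.1.2) := by fun_prop
  have m8 : Measurable fun w : α × β => ∫⁻ x, K w.1 w.2 x ∂ν :=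
    Measurable.lintegral_prod_right' (f := fun w : (α × β) × γ => K w.1.1 w.1.2 w.2)
      (hK.comp m9)
  exact Measurable.lintegral_prod_right' (f := fun w : α × β => L w.2 * ∫⁻ x, K w.1 w.2 x ∂ν)
    ((hL.comp measurable_snd).mul m8)

variable {k : ℕ}

/-- The trace, zero at the origin. -/
def GT {N s : ℕ} (S : Form (Fin N) s) (Y : Fin N → ℂ) : ℝ≥0∞ :=
  if Y = 0 then 0 else ENNReal.ofReal (trF (S Y))

theorem trF_smul {N p : ℕ} {S : Form (Fin N) p} (hS : ProjForm S) {l : ℂ} (hl : l ≠ 0)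
    {z : Fin N → ℂ} (hz : z ≠ 0) : trF (S (l • z)) = (‖l‖ ^ (2 * p))⁻¹ * trF (S z) := by
  unfold trF
  rw [Finset.mul_sum]
  refine Finset.sum_congr rfl fun I _ => ?_
  rw [hS.homog l z hl hz, Complex.re_ofReal_mul]

theorem GT_smul {N p : ℕ} {S : Form (Fin N) p} (hS : ProjForm S) {l : ℂ} (hl : l ≠ 0)
    (z : Fin N → ℂ) : GT S (l • z) = ENNReal.ofReal ((‖l‖ ^ (2 * p))⁻¹) * GT S z := by
  unfold GT
  by_cases hz : z = 0
  · subst hz
    simp
  · rw [if_neg hz, if_neg (smul_ne_zero hl hz), trF_smul hS hl hz,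
      ENNReal.ofReal_mul (by positivity)]

theorem trF_cont {N p : ℕ} {S : Form (Fin N) p} (hS : ProjForm S) :
    ContinuousOn (fun Y : Fin N → ℂ => trF (S Y)) {0}ᶜ := by
  unfold trF
  exact continuousOn_finsetSum _ fun I _ =>
    Complex.continuous_re.comp_continuousOn (hS.cp.smooth I I).continuousOn

theorem GT_meas {N p : ℕ} {S : Form (Fin N) p} (hS : ProjForm S) : Measurable (GT S) := by
  have h1 : Measurable fun Y : Fin N → ℂ => trF (S Y) :=
    measurable_of_continuousOn_compl_singleton 0 (trF_cont hS)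
  exact Measurable.ite (measurableSet_singleton 0) measurable_const h1.ennreal_ofReal

theorem nsq_pos' {ι : Type} [Fintype ι] {z : ι → ℂ} (hz : z ≠ 0) : 0 < nsq z := by
  obtain ⟨i, hi⟩ := Function.ne_iff.1 hz
  exact Finset.sum_pos' (fun _ _ => sq_nonneg _) ⟨i, Finset.mem_univ i,
    pow_pos (norm_pos_iff.2 hi) 2⟩

theorem nsq_smul' {ι : Type} [Fintype ι] (l : ℂ) (z : ι → ℂ) :
    nsq (l • z) = ‖l‖ ^ 2 * nsq z := by
  unfold nsq
  rw [Finset.mul_sum]
  refine Finset.sum_congr rfl fun i _ => ?_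
  rw [Pi.smul_apply, smul_eq_mul, norm_mul, mul_pow]

theorem gss_nonneg' {N : ℕ} (X : Fin N → Fin N → ℂ) : 0 ≤ gss X := by
  unfold gss
  positivity

/-- The integral over `(X, r)` for a fixed point. -/
theorem inner (s q : ℕ) (hk : s + 1 + q = k) (hRGA : T_RGA) (hRSH : T_RSH) :
    ∃ C : ℝ, 0 < C ∧ ∀ (S : Form (Fin (k + 1)) (s + 1)) (A : ℝ), 0 ≤ A → ProjForm S →
      mass q S = mass q (om (k + 1) (s + 1)) → LM q S A → ∀ (j : Fin (k + 1))
      (y : Fin (k + 1) → ℂ), y ≠ 0 →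
      ∫⁻ X : Fin (k + 1) → Fin (k + 1) → ℂ, ENNReal.ofReal (gss X) * ∫⁻ r : ℂ, Lam r *
        (ENNReal.ofReal (‖y j‖ ^ 2) * GT S ((Matrix.of (rep (cut j X) 0 j r)).mulVec y) *
          ENNReal.ofReal ((∑ i : Fin k, nsq (X i.succ)) ^ s) * ENNReal.ofReal (nsq y ^ s)) ≤
      ENNReal.ofReal (C * (1 + A)) := by
  obtain ⟨C1, hC1, h1⟩ := hRGA k s
  obtain ⟨C2, hC2, h2⟩ := hRSH k s q hk
  refine ⟨(C1.toReal + 1) * C2, by positivity, fun S A hA hS hm hLM j y hy => ?_⟩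
  have hρ : 0 < Real.sqrt (nsq y) := Real.sqrt_pos.2 (nsq_pos' hy)
  set ρ : ℝ := Real.sqrt (nsq y) with hρd
  have hρ2 : ρ ^ 2 = nsq y := Real.sq_sqrt (nsq_pos' hy).le
  have hρC : (ρ : ℂ) ≠ 0 := by exact_mod_cast hρ.ne'
  set y1 : Fin (k + 1) → ℂ := ((ρ : ℂ)⁻¹) • y with hy1
  have hyy : y = (ρ : ℂ) • y1 := by
    rw [hy1, smul_smul, mul_inv_cancel₀ hρC, one_smul]
  have hn1 : nsq y1 = 1 := by
    rw [hy1, nsq_smul', norm_inv, Complex.norm_real, Real.norm_of_nonneg hρ.le, inv_pow, hρ2]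
    exact inv_mul_cancel₀ (nsq_pos' hy).ne'
  have hnρ : ‖(ρ : ℂ)‖ = ρ := by rw [Complex.norm_real, Real.norm_of_nonneg hρ.le]
  have hyj : ‖y j‖ ^ 2 = ρ ^ 2 * ‖y1 j‖ ^ 2 := by
    have h3 : y j = (ρ : ℂ) * y1 j := congrFun hyy j
    rw [h3, norm_mul, hnρ, mul_pow]
  have hG : ∀ M : Matrix (Fin (k + 1)) (Fin (k + 1)) ℂ,
      GT S (M.mulVec y) = ENNReal.ofReal ((ρ ^ (2 * (s + 1)))⁻¹) * GT S (M.mulVec y1) := by
    intro M
    have h3 : M.mulVec y = (ρ : ℂ) • M.mulVec y1 := by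
      rw [← Matrix.mulVec_smul, ← hyy]
    rw [h3, GT_smul hS hρC, hnρ]
  have hr : ρ ^ 2 * (ρ ^ (2 * (s + 1)))⁻¹ * nsq y ^ s = 1 := by
    rw [← hρ2, mul_comm 2 (s + 1), pow_mul', ← pow_mul, ← pow_mul]
    rw [mul_right_comm, ← pow_add]
    have h3 : 2 + 2 * s = 2 * (s + 1) := by ring
    rw [h3]
    exact mul_inv_cancel₀ (pow_pos hρ _).ne'
  calc _ = ∫⁻ X : Fin (k + 1) → Fin (k + 1) → ℂ,
        ENNReal.ofReal (gss X * (∑ i : Fin k, nsq (X i.succ)) ^ s) *
          ∫⁻ r : ℂ, Lam r * ENNReal.ofReal (‖y1 j‖ ^ 2) *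
            GT S ((Matrix.of (rep (cut j X) 0 j r)).mulVec y1) := by
        refine lintegral_congr fun X => ?_
        have h5 : ENNReal.ofReal ((∑ i : Fin k, nsq (X i.succ)) ^ s) *
            ∫⁻ r : ℂ, Lam r * ENNReal.ofReal (‖y1 j‖ ^ 2) *
              GT S ((Matrix.of (rep (cut j X) 0 j r)).mulVec y1) =
            ∫⁻ r : ℂ, ENNReal.ofReal ((∑ i : Fin k, nsq (X i.succ)) ^ s) *
              (Lam r * ENNReal.ofReal (‖y1 j‖ ^ 2) *
              GT S ((Matrix.of (rep (cut j X) 0 j r)).mulVec y1)) :=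
          (lintegral_const_mul' _ _ ENNReal.ofReal_ne_top).symm
        rw [ENNReal.ofReal_mul (gss_nonneg' X), mul_assoc, h5]
        refine congrArg (fun t => ENNReal.ofReal (gss X) * t) (lintegral_congr fun r => ?_)
        rw [hG, hyj, ENNReal.ofReal_mul (by positivity)]
        have h3 : ENNReal.ofReal (ρ ^ 2) * ENNReal.ofReal ((ρ ^ (2 * (s + 1)))⁻¹) *
            ENNReal.ofReal (nsq y ^ s) = 1 := by
          rw [← ENNReal.ofReal_mul (by positivity), ← ENNReal.ofReal_mul (by positivity), hr,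
            ENNReal.ofReal_one]
        calc _ = (ENNReal.ofReal (ρ ^ 2) * ENNReal.ofReal ((ρ ^ (2 * (s + 1)))⁻¹) *
            ENNReal.ofReal (nsq y ^ s)) * (ENNReal.ofReal ((∑ i : Fin k, nsq (X i.succ)) ^ s) *
            (Lam r * ENNReal.ofReal (‖y1 j‖ ^ 2) *
              GT S ((Matrix.of (rep (cut j X) 0 j r)).mulVec y1))) := by ring
          _ = _ := by rw [h3, one_mul]
    _ ≤ C1 * ∫⁻ Y : Fin (k + 1) → ℂ, Lam (Y 0) *
        ENNReal.ofReal (Real.exp (-nsq (tl Y)) * (1 + nsq (tl Y)) ^ s) * GT S Y :=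
        h1 j y1 hn1 (GT S) (GT_meas hS)
    _ ≤ C1 * ENNReal.ofReal (C2 * (1 + A)) := by
        gcongr
        refine le_trans (lintegral_mono fun Y => ?_) (h2 S A hA hS hm hLM)
        dsimp only
        gcongr
        unfold GT
        split_ifs
        · exact zero_le
        · exact le_rfl
    _ ≤ ENNReal.ofReal (C1.toReal + 1) * ENNReal.ofReal (C2 * (1 + A)) := by
        gcongr
        rw [← ENNReal.ofReal_toReal hC1]
        exact ENNReal.ofReal_le_ofReal (by simp)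
    _ = _ := by
        rw [← ENNReal.ofReal_mul (by positivity), mul_assoc]

theorem rc_apply (j : Fin (k + 1)) (X : Fin (k + 1) → Fin (k + 1) → ℂ) (r : ℂ)
    (i l : Fin (k + 1)) : rep (cut j X) 0 j r i l =
      if i = 0 then (if l = j then r else if (l : ℕ) < j then X 0 l else 0) else X i l := by
  rw [Pool.Agent.H14.EQ.rep_apply]
  unfold cut row0
  by_cases hi : i = 0
  · subst hi
    by_cases hl : l = j
    · simp [hl]
    · simp [hl]
  · simp [hi]

theorem mv_cont (j : Fin (k + 1)) : Continuous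
    fun w : ((Fin (k + 1) → Fin (k + 1) → ℂ) × (Fin (k + 1) → ℂ)) × ℂ =>
      (Matrix.of (rep (cut j w.1.1) 0 j w.2)).mulVec w.1.2 := by
  refine continuous_pi fun i => ?_
  have h1 : ∀ w : ((Fin (k + 1) → Fin (k + 1) → ℂ) × (Fin (k + 1) → ℂ)) × ℂ,
      (Matrix.of (rep (cut j w.1.1) 0 j w.2)).mulVec w.1.2 i =
      ∑ l, (if i = 0 then (if l = j then w.2 else if (l : ℕ) < j then w.1.1 0 l else 0)
        else w.1.1 i l) * w.1.2 l := by
    intro w
    change ∑ l, rep (cut j w.1.1) 0 j w.2 i l * w.1.2 l = _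
    exact Finset.sum_congr rfl fun l _ =>
      congrArg (fun t => t * w.1.2 l) (rc_apply j w.1.1 w.2 i l)
  simp only [h1]
  refine continuous_finsetSum _ fun l _ => Continuous.mul ?_ (by fun_prop)
  split_ifs <;> fun_prop

theorem row_succ (j : Fin (k + 1)) (X : Fin (k + 1) → Fin (k + 1) → ℂ) (r : ℂ) (i : Fin k) :
    rep (cut j X) 0 j r i.succ = X i.succ := by
  funext l
  rw [rc_apply, if_neg (Fin.succ_ne_zero i)]

theorem ofReal6 {a b c d e f : ℝ} (ha : 0 ≤ a) (hb : 0 ≤ b) (hc : 0 ≤ c) (hd : 0 ≤ d)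
    (he : 0 ≤ e) : ENNReal.ofReal (a * b * (c * d * e * f)) =
      ENNReal.ofReal a * ENNReal.ofReal b *
        (ENNReal.ofReal c * ENNReal.ofReal d * ENNReal.ofReal e * ENNReal.ofReal f) := by
  rw [ENNReal.ofReal_mul (by positivity), ENNReal.ofReal_mul (by positivity),
    ENNReal.ofReal_mul (by positivity), ENNReal.ofReal_mul (by positivity),
    ENNReal.ofReal_mul (by positivity)]

/-- RMB with a measurable majorant. -/
theorem RMBs (hRW : T_RW) (hRPD : T_RPD) (hRDO : T_RDO) (hRGA : T_RGA) (hRSH : T_RSH)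
    (hRTG : T_RTG) (hRLA : T_RLA) (hP1 : T_P1) (hP3 : T_P3) (hP5 : T_P5) (hS5 : T_S5)
    (hD5 : T_D5) (hD7 : T_D7) (hL1 : T_L1) :
    ∀ k s q : ℕ, s + 1 + q = k → ∃ C : ℝ, 0 < C ∧ ∀ (D : ℕ)
    (Φ : Fin (k + 1) → MvPolynomial (Fin (k + 1)) ℂ), 1 ≤ D → IsH D Φ →
    ∀ (v : Fin (q + 1) → (Fin (k + 1) → ℂ) → ℝ), (∀ l, Pot (v l)) →
    ∀ (S : Form (Fin (k + 1)) (s + 1)) (A : ℝ), 0 ≤ A → ProjForm S →
    mass q S = mass q (om (k + 1) (s + 1)) → LM q S A → ∀ j : Fin (k + 1), j ≠ 0 →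
    ∃ R : (Fin (k + 1) → Fin (k + 1) → ℂ) → ℝ≥0∞, Measurable R ∧
      (∀ᵐ X : Fin (k + 1) → Fin (k + 1) → ℂ, ∫⁻ r : ℂ, Lam r * ENNReal.ofReal (mT (pull
          (Pool.Agent.H14.EQ.GP Φ (cut j X) 0 j) S) (fun l z => v l (tl z)) r) ≤ R X) ∧
      ∫⁻ X : Fin (k + 1) → Fin (k + 1) → ℂ, ENNReal.ofReal (gss X) * R X ≤
        ENNReal.ofReal (C * (1 + A) * ((D : ℝ) ^ (s + 1) / D)) := by
  intro k s q hk
  obtain ⟨c, hc, hW⟩ := hRW k s q hk
  obtain ⟨C1, hC1, hDO⟩ := hRDO (k + 1) s (q + 1) (by omega)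
  obtain ⟨C2, hC2, hI⟩ := inner s q hk hRGA hRSH
  have hM := ((hD7 (k + 1) s).2 (q + 1) (by omega)).1
  refine ⟨c * C1 * C2 * mass (q + 1) (om (k + 1) s), by positivity,
    fun D Φ hD hΦ v hv S A hA hS hm hLM j hj => ?_⟩
  have hpf : ProjForm (pull Φ (om (k + 1) s)) := hD5 _ _ D Φ _ hD hΦ (hD7 (k + 1) s).1
  have hLH : ∀ l, LH (1 : ℝ) (v l) := fun l => (hL1 (k + 1) 1 1 1 1 (v l) (v l)).2.2.1 (hv l)
  have hev : ∀ x : Fin (k + 1) → ℂ, x ≠ 0 → ev Φ x ≠ 0 := fun x hx h => hx (hΦ.nd x h)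
  obtain ⟨hU0, -, hUm, -⟩ := hP3 (k + 1) s (q + 1) (pull Φ (om (k + 1) s)) v (by omega) hpf hv
  have hUc := (hS5 (k + 1) s (q + 1) (pull Φ (om (k + 1) s)) v (fun _ => 1) (by omega) hpf
    hLH).1
  have hUi := (hP1 (k + 1) s (q + 1) (pull Φ (om (k + 1) s)) v (fun _ => 1) (by omega) hpf
    hLH).2 (fun _ => 1) continuousOn_const
  have hmass := (hP5 (k + 1) s (q + 1) D (om (k + 1) s) (by omega) (hD7 (k + 1) s).1).1 Φ hD hΦ
  set U : (Fin (k + 1) → ℂ) → ℝ := fun x => Q (pull Φ (om (k + 1) s)) v x with hUd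
  have hUmeas : Measurable U := measurable_of_continuousOn_compl_singleton 0 hUc
  set ν : Measure (Fin (k + 1) → ℂ) :=
    (volume : Measure (Fin (k + 1) → ℂ)).restrict {z | 0 ≤ ell z ∧ ell z < 1} with hν
  have hνae : ∀ᵐ x ∂ν, x ≠ 0 := by
    refine ae_restrict_of_ae ?_
    rw [ae_iff]
    simp
  have hevc : Continuous (ev Φ) := continuous_pi fun _ => MvPolynomial.continuous_eval _
  -- the dominating function
  set K : (Fin (k + 1) → Fin (k + 1) → ℂ) → ℂ → (Fin (k + 1) → ℂ) → ℝ≥0∞ := fun X r x =>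
    ENNReal.ofReal (c * C1) * ENNReal.ofReal (U x) *
      (ENNReal.ofReal (‖ev Φ x j‖ ^ 2) *
        GT S ((Matrix.of (rep (cut j X) 0 j r)).mulVec (ev Φ x)) *
        ENNReal.ofReal ((∑ i : Fin k, nsq (X i.succ)) ^ s) *
        ENNReal.ofReal (nsq (ev Φ x) ^ s)) with hKd
  have hKm : Measurable fun w : ((Fin (k + 1) → Fin (k + 1) → ℂ) × (Fin (k + 1) → ℂ)) × ℂ =>
      K w.1.1 w.2 w.1.2 := by
    have m1 : Measurable fun w : ((Fin (k + 1) → Fin (k + 1) → ℂ) × (Fin (k + 1) → ℂ)) × ℂ =>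
        GT S ((Matrix.of (rep (cut j w.1.1) 0 j w.2)).mulVec (ev Φ w.1.2)) := by
      have m2 : Continuous
          fun w : ((Fin (k + 1) → Fin (k + 1) → ℂ) × (Fin (k + 1) → ℂ)) × ℂ =>
          ((w.1.1, ev Φ w.1.2), w.2) := by fun_prop
      exact (GT_meas hS).comp ((mv_cont j).comp m2).measurable
    have m3 : Measurable fun w : ((Fin (k + 1) → Fin (k + 1) → ℂ) × (Fin (k + 1) → ℂ)) × ℂ =>
        ENNReal.ofReal (U w.1.2) := by fun_prop
    have m4 : Continuous fun w : ((Fin (k + 1) → Fin (k + 1) → ℂ) × (Fin (k + 1) → ℂ)) × ℂ =>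
        ‖ev Φ w.1.2 j‖ ^ 2 := by fun_prop
    have m5 : Continuous fun w : ((Fin (k + 1) → Fin (k + 1) → ℂ) × (Fin (k + 1) → ℂ)) × ℂ =>
        (∑ i : Fin k, nsq (w.1.1 i.succ)) ^ s := by
      unfold nsq
      fun_prop
    have m6 : Continuous fun w : ((Fin (k + 1) → Fin (k + 1) → ℂ) × (Fin (k + 1) → ℂ)) × ℂ =>
        nsq (ev Φ w.1.2) ^ s := by
      unfold nsq
      fun_prop
    exact (measurable_const.mul m3).mul (((m4.measurable.ennreal_ofReal.mul m1).mul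
      m5.measurable.ennreal_ofReal).mul m6.measurable.ennreal_ofReal)
  -- the pointwise estimate
  have hpt : ∀ᵐ X : Fin (k + 1) → Fin (k + 1) → ℂ, ∀ᵐ r : ℂ,
      ENNReal.ofReal (mT (pull (Pool.Agent.H14.EQ.GP Φ (cut j X) 0 j) S)
        (fun l z => v l (tl z)) r) ≤ ∫⁻ x, K X r x ∂ν := by
    filter_upwards [hRTG k j hj] with X hX
    obtain ⟨-, -, t1, C3, -, ht1⟩ := hX
    have hae : ∀ᵐ r : ℂ, r ≠ t1 := by
      rw [ae_iff]
      simp
    filter_upwards [hae] with r hr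
    have hdet := (ht1 r hr).1
    refine (ofReal_integral_le _ _).trans (lintegral_mono_ae ?_)
    filter_upwards [hνae] with x hx
    have hy := hev x hx
    obtain ⟨hTen, hT0, hTle⟩ := hRPD k s S (rep (cut j X) 0 j r) j (ev Φ x) hS hdet hy
    have e1 := hW D Φ hD hΦ S hS (cut j X) j v hv r x hx hdet
    have e2 := hDO D Φ hD hΦ (Wj S (rep (cut j X) 0 j r) j) v hv x hx hTen
    have hAy : (Matrix.of (rep (cut j X) 0 j r)).mulVec (ev Φ x) ≠ 0 := fun h0 =>
      hy (Matrix.eq_zero_of_mulVec_eq_zero hdet h0)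
    have hU := hU0 x hx
    have hn := (nsq_pos' hy).le
    simp only [row_succ] at hTle
    set T : ℝ := trF (S ((Matrix.of (rep (cut j X) 0 j r)).mulVec (ev Φ x))) with hT
    set Sg : ℝ := ∑ i : Fin k, nsq (X i.succ) with hSg
    have hSg0 : 0 ≤ Sg := Finset.sum_nonneg fun i _ => by
      unfold nsq
      positivity
    rw [e1]
    have e3 : c * Q (pull Φ (Wj S (rep (cut j X) 0 j r) j)) v x ≤
        (c * C1) * U x * (‖ev Φ x j‖ ^ 2 * T * Sg ^ s * nsq (ev Φ x) ^ s) := by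
      calc _ ≤ c * (C1 * (‖ev Φ x j‖ ^ 2 * T * Sg ^ s) * nsq (ev Φ x) ^ s * U x) := by
            refine mul_le_mul_of_nonneg_left (e2.trans ?_) hc.le
            refine mul_le_mul_of_nonneg_right (mul_le_mul_of_nonneg_right
              (mul_le_mul_of_nonneg_left hTle hC1.le) (by positivity)) hU
        _ = _ := by ring
    refine (ENNReal.ofReal_le_ofReal e3).trans (le_of_eq ?_)
    rw [hKd]
    dsimp only
    unfold GT
    rw [if_neg hAy]
    exact ofReal6 (by positivity) hU (by positivity) hT0 (by positivity)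
  refine ⟨fun X => ∫⁻ r : ℂ, Lam r * ∫⁻ x, K X r x ∂ν, ?_, ?_, ?_⟩
  · exact meas3 volume ν hRLA.1 hKm
  · filter_upwards [hpt] with X hX
    refine lintegral_mono_ae ?_
    filter_upwards [hX] with r hr using mul_le_mul' le_rfl hr
  calc _ = ∫⁻ x, (∫⁻ X : Fin (k + 1) → Fin (k + 1) → ℂ, ENNReal.ofReal (gss X) *
        ∫⁻ r : ℂ, Lam r * K X r x) ∂ν := by
        refine swap3 volume volume ν ?_ hRLA.1 hKm
        have m7 : Continuous (gss : (Fin (k + 1) → Fin (k + 1) → ℂ) → ℝ) := by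
          unfold gss
          fun_prop
        exact m7.measurable.ennreal_ofReal
    _ ≤ ∫⁻ x, ENNReal.ofReal (c * C1) * ENNReal.ofReal (U x) *
        ENNReal.ofReal (C2 * (1 + A)) ∂ν := by
        refine lintegral_mono_ae ?_
        filter_upwards [hνae] with x hx
        have e4 := hI S A hA hS hm hLM j (ev Φ x) (hev x hx)
        refine le_trans (le_of_eq ?_) (mul_le_mul_right e4
          (ENNReal.ofReal (c * C1) * ENNReal.ofReal (U x)))
        have hne : ENNReal.ofReal (c * C1) * ENNReal.ofReal (U x) ≠ ⊤ :=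
          ENNReal.mul_ne_top ENNReal.ofReal_ne_top ENNReal.ofReal_ne_top
        rw [← lintegral_const_mul' _ _ hne]
        refine lintegral_congr fun X => ?_
        rw [mul_left_comm, ← lintegral_const_mul' _ _ hne]
        refine congrArg (fun t => ENNReal.ofReal (gss X) * t) (lintegral_congr fun r => ?_)
        rw [hKd]
        dsimp only
        rw [mul_left_comm]
    _ = ENNReal.ofReal (c * C1) * ENNReal.ofReal (C2 * (1 + A)) *
        ∫⁻ x, ENNReal.ofReal (U x) ∂ν := by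
        rw [← lintegral_const_mul' _ _ (ENNReal.mul_ne_top ENNReal.ofReal_ne_top
          ENNReal.ofReal_ne_top)]
        exact lintegral_congr fun x => by ring
    _ = ENNReal.ofReal (c * C1) * ENNReal.ofReal (C2 * (1 + A)) *
        ENNReal.ofReal ((D : ℝ) ^ s * mass (q + 1) (om (k + 1) s)) := by
        congr 1
        rw [← hmass, ← hUm]
        unfold pair Iint
        simp only [one_mul] at hUi ⊢
        refine (ofReal_integral_eq_lintegral_ofReal hUi ?_).symm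
        filter_upwards [hνae] with x hx using hU0 x hx
    _ = _ := by
        have hD0 : 0 < (D : ℝ) := by exact_mod_cast hD
        rw [← ENNReal.ofReal_mul (by positivity), ← ENNReal.ofReal_mul (by positivity)]
        congr 1
        rw [pow_succ, mul_div_assoc, div_self hD0.ne']
        ring

theorem pf_RMB (hRW : T_RW) (hRPD : T_RPD) (hRDO : T_RDO) (hRGA : T_RGA) (hRSH : T_RSH)
    (hRTG : T_RTG) (hRLA : T_RLA) (hP1 : T_P1) (hP3 : T_P3) (hP5 : T_P5) (hS5 : T_S5)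
    (hD5 : T_D5) (hD7 : T_D7) (hL1 : T_L1) : T_RMB := by
  intro k s q hk
  obtain ⟨C, hC, h⟩ :=
    RMBs hRW hRPD hRDO hRGA hRSH hRTG hRLA hP1 hP3 hP5 hS5 hD5 hD7 hL1 k s q hk
  refine ⟨C, hC, fun D Φ hD hΦ v hv S A hA hS hm hLM j hj => ?_⟩
  obtain ⟨R, -, h1, h2⟩ := h D Φ hD hΦ v hv S A hA hS hm hLM j hj
  refine (lintegral_mono_ae ?_).trans h2
  filter_upwards [h1] with X hX using mul_le_mul' le_rfl hX

end

end Pool.Agent.H33.EHD
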