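import Pool.Agent.H33.EHD.RMB
import Pool.Agent.H42.EHD.RTK

/-!
Board ehd_modules (MP_75a732_an), row RMV: one more entry of the row `0`.
-/

set_option autoImplicit false

namespace Pool.Agent.H33.EHD

open scoped BigOperators ComplexConjugate ContDiff ComplexOrder ENNReal
open MeasureTheory
open Pool.Agent.H92.EQ Pool.Agent.H92.EHD

noncomputable section

variable {k : ℕ}

theorem cut_apply (n : ℕ) (X : Fin (k + 1) → Fin (k + 1) → ℂ) (i l : Fin (k + 1)) :
    cut n X i l = if i = 0 then (if (l : ℕ) < n then X 0 l else 0) else X i l := by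
  unfold cut row0
  by_cases hi : i = 0
  · subst hi
    simp
  · simp [hi]

theorem cut_rep (j : Fin (k + 1)) (X : Fin (k + 1) → Fin (k + 1) → ℂ) (r : ℂ) :
    cut (j + 1) (rep X 0 j r) = rep (cut j X) 0 j r := by
  funext i l
  rw [cut_apply, rc_apply]
  by_cases hi : i = 0
  · subst hi
    rw [if_pos rfl, if_pos rfl, Pool.Agent.H14.EQ.rep_apply]
    by_cases hl : l = j
    · subst hl
      simp
    · have h1 : (l : ℕ) ≠ (j : ℕ) := fun h => hl (Fin.ext h)
      rw [if_neg hl]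
      by_cases hlt : (l : ℕ) < j
      · rw [if_pos hlt, if_pos (by omega), if_neg (by simp [hl])]
      · rw [if_neg hlt, if_neg (by omega)]
  · rw [if_neg hi, if_neg hi, Pool.Agent.H14.EQ.rep_apply, if_neg (by simp [hi])]

theorem rep_zero (j : Fin (k + 1)) (X : Fin (k + 1) → Fin (k + 1) → ℂ) :
    rep (cut j X) 0 j 0 = cut j X := by
  funext i l
  rw [cut_apply, rc_apply]
  by_cases hi : i = 0
  · subst hi
    rw [if_pos rfl, if_pos rfl]
    by_cases hl : l = j
    · subst hl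
      simp
    · rw [if_neg hl]
  · rw [if_neg hi, if_neg hi]

theorem cut_cont (n : ℕ) :
    Continuous (cut n : (Fin (k + 1) → Fin (k + 1) → ℂ) → Fin (k + 1) → Fin (k + 1) → ℂ) := by
  refine continuous_pi fun i => continuous_pi fun l => ?_
  simp only [cut_apply]
  split_ifs <;> fun_prop

/-- Measurability and integrability. -/
theorem gss_cut_int {n : ℕ} {b : (Fin (k + 1) → Fin (k + 1) → ℂ) → ℝ} {B : ℝ}
    (hg : Integrable (gss : (Fin (k + 1) → Fin (k + 1) → ℂ) → ℝ))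
    (hc : ContinuousOn b {X | (Matrix.of X).det ≠ 0})
    (hb : ∀ X, (Matrix.of X).det ≠ 0 → |b X| ≤ B)
    (hae : ∀ᵐ X : Fin (k + 1) → Fin (k + 1) → ℂ, (Matrix.of (cut n X)).det ≠ 0) :
    Integrable (fun X : Fin (k + 1) → Fin (k + 1) → ℂ => gss X * b (cut n X)) := by
  have hmeas : AEStronglyMeasurable (fun X : Fin (k + 1) → Fin (k + 1) → ℂ => b (cut n X)) := by
    have hopen : IsOpen {X : Fin (k + 1) → Fin (k + 1) → ℂ | (Matrix.of (cut n X)).det ≠ 0} := by
      have hc : Continuous fun X : Fin (k + 1) → Fin (k + 1) → ℂ =>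
          (Matrix.of (cut n X)).det := by
        refine Continuous.matrix_det ?_
        exact cut_cont n
      exact isOpen_ne_fun hc continuous_const
    have h0 : ContinuousOn (fun X : Fin (k + 1) → Fin (k + 1) → ℂ => b (cut n X))
        {X : Fin (k + 1) → Fin (k + 1) → ℂ | (Matrix.of (cut n X)).det ≠ 0} :=
      hc.comp (cut_cont n).continuousOn fun X hX => hX
    have h1 := h0.aestronglyMeasurable (μ := volume) hopen.measurableSet
    have h2 : (volume : Measure (Fin (k + 1) → Fin (k + 1) → ℂ)).restrict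
        {X : Fin (k + 1) → Fin (k + 1) → ℂ | (Matrix.of (cut n X)).det ≠ 0} = volume :=
      Measure.restrict_eq_self_of_ae_mem hae
    rwa [h2] at h1
  refine hg.mul_bdd (c := B) hmeas ?_
  filter_upwards [hae] with X hX
  rw [Real.norm_eq_abs]
  exact hb _ hX

theorem pf_RMV (hRW : T_RW) (hRPD : T_RPD) (hRDO : T_RDO) (hRGA : T_RGA) (hRSH : T_RSH)
    (hRTG : T_RTG) (hRLA : T_RLA) (hP1 : T_P1) (hP3 : T_P3) (hP5 : T_P5) (hS5 : T_S5)
    (hD5 : T_D5) (hD7 : T_D7) (hL1 : T_L1) (hRFB : T_RFB) (hETI : T_ETI)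
    (hTJ : T_TJ) (hTN : T_TN) (hL6 : T_L6) (hIA : T_IA) : T_RMV := by
  intro k s q hk
  obtain ⟨C, hC, hR⟩ :=
    RMBs hRW hRPD hRDO hRGA hRSH hRTG hRLA hP1 hP3 hP5 hS5 hD5 hD7 hL1 k s q hk
  refine ⟨2 * C, by positivity, fun D Φ hD hΦ w w' u hw hw' hu S A hA hS hm hLM j hj => ?_⟩
  have hN : s + 1 + q + 1 = k + 1 := by omega
  have hD0 : 0 < (D : ℝ) := by exact_mod_cast hD
  have hhom : Hom0 (fun z => w z - w' z) := by
    have h1 := (hL1 (k + 1) 1 1 1 (-1) w w').1 ((hL1 (k + 1) 1 1 1 1 w w).2.2.1 hw)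
      ((hL1 (k + 1) 1 1 1 1 w' w').2.2.1 hw')
    have h2 : (fun z => (1 : ℝ) * w z + -1 * w' z) = fun z => w z - w' z := by
      funext z
      ring
    rw [h2] at h1
    refine (hL1 (k + 1) 0 0 0 0 (fun z => w z - w' z) w').2.1.2 ?_
    have h3 : (1 : ℝ) * 1 + -1 * 1 = 0 := by norm_num
    rwa [h3] at h1
  obtain ⟨B, hB, hBb⟩ := (hL6 (k + 1)).1 (fun z => w z - w' z) hhom.smooth.continuousOn
    (fun r z hr hz => hhom.hom (r : ℂ) z (by exact_mod_cast hr.ne') hz)
  obtain ⟨hcont, hbd, -⟩ :=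
    hTN (k + 1) (s + 1) q D Φ S (fun z => w z - w' z) u B hN hD hΦ hS hhom hu hBb
  have hmass : 0 ≤ mass q S := (hP5 (k + 1) (s + 1) q D S hN hS).2.2
  have hgint : Integrable (gss : (Fin (k + 1) → Fin (k + 1) → ℂ) → ℝ) := by
    have h1 := (hIA (k + 1) (s + 1) S (by omega) hS).1
    by_contra hcon
    rw [integral_undef hcon] at h1
    exact zero_ne_one h1
  set b : (Fin (k + 1) → Fin (k + 1) → ℂ) → ℝ :=
    fun X => am (fun z => w z - w' z) Φ S u (Matrix.of X) with hb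
  set B' : ℝ := B * ((D : ℝ) ^ (s + 1) * mass q S) with hB'
  have hbB : ∀ X, (Matrix.of X).det ≠ 0 → |b X| ≤ B' := fun X hX => hbd (Matrix.of X) hX
  have hgen := hRTG k j hj
  have i1 : Integrable (fun X : Fin (k + 1) → Fin (k + 1) → ℂ => gss X * b (cut (j + 1) X)) :=
    gss_cut_int hgint hcont hbB (by filter_upwards [hgen] with X hX using hX.1)
  have i2 : Integrable (fun X : Fin (k + 1) → Fin (k + 1) → ℂ => gss X * b (cut j X)) :=
    gss_cut_int hgint hcont hbB (by filter_upwards [hgen] with X hX using hX.2.1)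
  obtain ⟨i3, e3⟩ := hRFB (k + 1) 0 j (fun X => b (cut (j + 1) X)) i1
  simp only [cut_rep] at i3 e3
  have hvw : ∀ l, Pot ((Fin.cons w u : Fin (q + 1) → (Fin (k + 1) → ℂ) → ℝ) l) := by
    intro l
    refine Fin.cases ?_ (fun l => ?_) l
    · exact hw
    · exact hu l
  have hvw' : ∀ l, Pot ((Fin.cons w' u : Fin (q + 1) → (Fin (k + 1) → ℂ) → ℝ) l) := by
    intro l
    refine Fin.cases ?_ (fun l => ?_) l
    · exact hw'
    · exact hu l
  obtain ⟨R, hRm, hR1, hR2⟩ := hR D Φ hD hΦ _ hvw S A hA hS hm hLM j hj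
  obtain ⟨R', hRm', hR1', hR2'⟩ := hR D Φ hD hΦ _ hvw' S A hA hS hm hLM j hj
  -- the pointwise estimate
  have hpt : ∀ᵐ X : Fin (k + 1) → Fin (k + 1) → ℂ,
      ENNReal.ofReal |(∫ r, gs 1 r * b (rep (cut j X) 0 j r)) - b (cut j X)| ≤ R X + R' X := by
    filter_upwards [hgen, hR1, hR1'] with X hX hX1 hX2
    obtain ⟨-, -, t1, C0, ht1, hX3⟩ := hX
    obtain ⟨F, F', C2, hmm, hmc, hmc', hFc, hFc', hF, hF', hW, hW', hac, haW⟩ :=
      hETI (k + 1) (s + 1) q D Φ S w w' u (cut j X) 0 j t1 C0 hN hD hΦ hS hw hw' hu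
        (fun t ht => (hX3 t ht).1) (fun t ht => (hX3 t ht).2) _ _ rfl rfl
    have hA0 : 0 ≤ ((q : ℝ) + 1) * ((k + 1 : ℕ) : ℝ) * ((D : ℝ) ^ (s + 1) / D) * mass q S := by
      positivity
    obtain ⟨c0, hc0, hJ⟩ := hTJ
    have h1 := hJ t1 F _ _ (max C2 0) hA0 (le_max_right _ _) hFc hmc (fun t ht => (hmm t ht).1)
      (fun t ht => (hF t ht).trans (add_le_add_right (le_max_left _ _) _)) hW
    have h2 := hJ t1 F' _ _ (max C2 0) hA0 (le_max_right _ _) hFc' hmc'
      (fun t ht => (hmm t ht).2)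
      (fun t ht => (hF' t ht).trans (add_le_add_right (le_max_left _ _) _)) hW'
    have h3 := Pool.Agent.H42.EHD.rtk t1 (fun t => b (rep (cut j X) 0 j t)) _ _ B' ht1 hac
      (fun t ht => hbB _ (hX3 t ht).1) hmm hmc hmc' h1.1 h2.1 haW
    rw [abs_sub_comm]
    refine le_trans (le_of_eq ?_) (h3.trans (add_le_add hX1 hX2))
    rw [rep_zero]
  -- the difference
  have hdiff : (∫ X : Fin (k + 1) → Fin (k + 1) → ℂ, gss X * b (cut (j + 1) X)) -
      ∫ X : Fin (k + 1) → Fin (k + 1) → ℂ, gss X * b (cut j X) =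
      ∫ X : Fin (k + 1) → Fin (k + 1) → ℂ, gss X *
        ((∫ r, gs 1 r * b (rep (cut j X) 0 j r)) - b (cut j X)) := by
    rw [e3, ← integral_sub i3 i2]
    simp only [mul_sub]
  have hfin : ENNReal.ofReal |(∫ X : Fin (k + 1) → Fin (k + 1) → ℂ,
      gss X * b (cut (j + 1) X)) -
      ∫ X : Fin (k + 1) → Fin (k + 1) → ℂ, gss X * b (cut j X)| ≤
      ENNReal.ofReal (2 * C * (1 + A) * ((D : ℝ) ^ (s + 1) / D)) := by
    rw [hdiff, ← Real.enorm_eq_ofReal_abs]
    calc _ ≤ ∫⁻ X : Fin (k + 1) → Fin (k + 1) → ℂ, ‖gss X *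
          ((∫ r, gs 1 r * b (rep (cut j X) 0 j r)) - b (cut j X))‖ₑ :=
          enorm_integral_le_lintegral_enorm _
      _ ≤ ∫⁻ X : Fin (k + 1) → Fin (k + 1) → ℂ,
          (ENNReal.ofReal (gss X) * R X + ENNReal.ofReal (gss X) * R' X) := by
          refine lintegral_mono_ae ?_
          filter_upwards [hpt] with X hX
          rw [Real.enorm_eq_ofReal_abs, abs_mul, abs_of_nonneg (gss_nonneg' X),
            ENNReal.ofReal_mul (gss_nonneg' X), ← mul_add]
          exact mul_le_mul' le_rfl hX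
      _ = (∫⁻ X : Fin (k + 1) → Fin (k + 1) → ℂ, ENNReal.ofReal (gss X) * R X) +
          ∫⁻ X : Fin (k + 1) → Fin (k + 1) → ℂ, ENNReal.ofReal (gss X) * R' X := by
          have m7 : Continuous (gss : (Fin (k + 1) → Fin (k + 1) → ℂ) → ℝ) := by
            unfold gss
            fun_prop
          exact lintegral_add_left (m7.measurable.ennreal_ofReal.mul hRm) _
      _ ≤ _ := by
          refine (add_le_add hR2 hR2').trans (le_of_eq ?_)
          rw [← ENNReal.ofReal_add (by positivity) (by positivity)]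
          congr 1
          ring
  exact (ENNReal.ofReal_le_ofReal_iff (by positivity)).1 hfin

end

end Pool.Agent.H33.EHD
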